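import Pool.Agent.U433.Sep8Edge

/-!
# MP_a0a64f_co: eight points in space can be separated by three planes

For every set of eight points in general position in three-dimensional Euclidean space there are
three planes in general position (their normals are linearly independent, so that they cut space
into eight compartments) such that every compartment contains exactly one of the points.

Proof idea: take an edge of the convex hull and sort the other six points around it. After this
relabelling the statement follows from the Grassmann-Pluecker relations between orientations and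
from the fact that a plane through three of the points can be moved slightly so that these three
points lie on prescribed sides; the finite case analysis is checked by a small verified checker.
-/

set_option autoImplicit false

namespace Pool.Agent.Results.MP_a0a64f_co.EightPoints

open Pool.Agent.U433.Sep8

theorem inner_three (u w : EuclideanSpace ℝ (Fin 3)) :
    inner ℝ u w = u 0 * w 0 + u 1 * w 1 + u 2 * w 2 := by
  rw [PiLp.inner_apply, Fin.sum_univ_three]
  simp only [RCLike.inner_apply, conj_trivial]
  ring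

theorem exists_plane_of_D (x y z : ℕ → ℝ) (a b c d : ℕ) (h : D x y z a b c d = 0) :
    ∃ A B C E : ℝ, ¬ (A = 0 ∧ B = 0 ∧ C = 0) ∧ A * x a + B * y a + C * z a = E ∧
      A * x b + B * y b + C * z b = E ∧ A * x c + B * y c + C * z c = E ∧
      A * x d + B * y d + C * z d = E := by
  let M : Matrix (Fin 3) (Fin 3) ℝ := !![x b - x a, y b - y a, z b - z a;
    x c - x a, y c - y a, z c - z a; x d - x a, y d - y a, z d - z a]
  have hM : M.det = 0 := by
    rw [← h, Matrix.det_fin_three]
    simp only [M, Matrix.of_apply, Matrix.cons_val', Matrix.cons_val_zero, Matrix.cons_val_one,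
      Matrix.cons_val, Matrix.cons_val_fin_one]
    unfold D det3; ring
  obtain ⟨v, hv, hMv⟩ := Matrix.exists_mulVec_eq_zero_iff.2 hM
  refine ⟨v 0, v 1, v 2, v 0 * x a + v 1 * y a + v 2 * z a, ?_, rfl, ?_, ?_, ?_⟩
  · rintro ⟨h0, h1, h2⟩
    apply hv
    funext i
    fin_cases i <;> simp [h0, h1, h2]
  · have := congrFun hMv 0
    simp [M, Matrix.mulVec, dotProduct, Fin.sum_univ_three] at this
    linarith
  · have := congrFun hMv 1
    simp [M, Matrix.mulVec, dotProduct, Fin.sum_univ_three] at this
    linarith
  · have := congrFun hMv 2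
    simp [M, Matrix.mulVec, dotProduct, Fin.sum_univ_three] at this
    linarith

/-- Three planes for which all eight sign patterns occur have independent normals. -/
theorem independent_of_patterns (n : Fin 3 → EuclideanSpace ℝ (Fin 3)) (c : Fin 3 → ℝ)
    (h : ∀ s : Fin 3 → Bool, ∃ p, ∀ i, (s i = true → c i < inner ℝ (n i) p) ∧
      (s i = false → inner ℝ (n i) p < c i)) : LinearIndependent ℝ n := by
  rw [Fintype.linearIndependent_iff]
  intro g hg
  by_contra hne
  push Not at hne
  obtain ⟨i0, hi0⟩ := hne
  have hsum : ∀ p, ∑ i, g i * inner ℝ (n i) p = 0 := by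
    intro p
    have : inner ℝ (∑ i, g i • n i) p = 0 := by rw [hg, inner_zero_left]
    rw [sum_inner] at this
    rw [← this]
    refine Finset.sum_congr rfl fun i _ => ?_
    rw [real_inner_smul_left]
  obtain ⟨p, hp⟩ := h (fun i => decide (0 < g i))
  obtain ⟨q, hq⟩ := h (fun i => !decide (0 < g i))
  have h1 : 0 < ∑ i, g i * (inner ℝ (n i) p - c i) := by
    apply Finset.sum_pos'
    · intro i _
      rcases lt_trichotomy (g i) 0 with hlt | heq | hgt
      · have := (hp i).2 (by simp [hlt.le])
        nlinarith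
      · rw [heq]; simp
      · have := (hp i).1 (by simp [hgt])
        nlinarith
    · refine ⟨i0, Finset.mem_univ _, ?_⟩
      rcases lt_or_gt_of_ne hi0 with hlt | hgt
      · have := (hp i0).2 (by simp [hlt.le])
        nlinarith
      · have := (hp i0).1 (by simp [hgt])
        nlinarith
  have h2 : ∑ i, g i * (inner ℝ (n i) q - c i) ≤ 0 := by
    apply Finset.sum_nonpos
    intro i _
    rcases lt_trichotomy (g i) 0 with hlt | heq | hgt
    · have := (hq i).1 (by simp [hlt.le])
      nlinarith
    · rw [heq]; simp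
    · have := (hq i).2 (by simp [hgt])
      nlinarith
  simp only [mul_sub, Finset.sum_sub_distrib, hsum] at h1 h2
  linarith

/-- **Three planes separate any eight points in general position in space.**
`P` is a set of eight points such that no four of them lie on a common plane
`{q | ⟪n, q⟫ = c}`, `n ≠ 0`. Then there are three planes `{q | ⟪n i, q⟫ = c i}` with linearly
independent normals, none of which meets `P`, such that each of the eight sign patterns (that is,
each of the eight compartments) contains exactly one point of `P`. -/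
theorem result (P : Finset (EuclideanSpace ℝ (Fin 3))) (hcard : P.card = 8)
    (hgen : ∀ Q ⊆ P, Q.card = 4 → ∀ (n : EuclideanSpace ℝ (Fin 3)) (c : ℝ), n ≠ 0 →
      ¬ ∀ q ∈ Q, inner ℝ n q = c) :
    ∃ (n : Fin 3 → EuclideanSpace ℝ (Fin 3)) (c : Fin 3 → ℝ),
      LinearIndependent ℝ n ∧
      (∀ i, n i ≠ 0) ∧
      (∀ i, ∀ p ∈ P, inner ℝ (n i) p ≠ c i) ∧
      ∀ s : Fin 3 → Bool, ∃! p, p ∈ P ∧
        ∀ i, (s i = true → c i < inner ℝ (n i) p) ∧ (s i = false → inner ℝ (n i) p < c i) := by
  classical
  let e : Fin 8 ≃ P := (P.equivFinOfCardEq hcard).symm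
  let pt : ℕ → EuclideanSpace ℝ (Fin 3) := fun t => if h : t < 8 then (e ⟨t, h⟩).1 else 0
  let x : ℕ → ℝ := fun t => pt t 0
  let y : ℕ → ℝ := fun t => pt t 1
  let z : ℕ → ℝ := fun t => pt t 2
  have hpt : ∀ i : Fin 8, pt i.val = (e i).1 := by
    intro i; simp only [pt, i.isLt, dif_pos]
  have hptmem : ∀ t, t < 8 → pt t ∈ P := by
    intro t ht
    have := hpt ⟨t, ht⟩
    simp only at this
    rw [this]; exact (e _).2
  have hptinj : ∀ s t, s < 8 → t < 8 → s ≠ t → pt s ≠ pt t := by
    intro s t hs ht hst h
    have h1 := hpt ⟨s, hs⟩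
    have h2 := hpt ⟨t, ht⟩
    simp only at h1 h2
    rw [h1, h2] at h
    have := e.injective (Subtype.ext h)
    exact hst (by simpa using this)
  have hG : GP x y z := by
    intro a b c d ha hb hc hd hab hac had hbc hbd hcd h0
    obtain ⟨A, B, C, E, hne, h1, h2, h3, h4⟩ := exists_plane_of_D x y z a b c d h0
    refine hgen {pt a, pt b, pt c, pt d} ?_ ?_ (!₂[A, B, C]) E ?_ ?_
    · intro q hq
      simp only [Finset.mem_insert, Finset.mem_singleton] at hq
      rcases hq with rfl | rfl | rfl | rfl
      · exact hptmem a ha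
      · exact hptmem b hb
      · exact hptmem c hc
      · exact hptmem d hd
    · have i1 := hptinj a b ha hb hab
      have i2 := hptinj a c ha hc hac
      have i3 := hptinj a d ha hd had
      have i4 := hptinj b c hb hc hbc
      have i5 := hptinj b d hb hd hbd
      have i6 := hptinj c d hc hd hcd
      rw [Finset.card_insert_of_notMem (by simp [i1, i2, i3]),
        Finset.card_insert_of_notMem (by simp [i4, i5]),
        Finset.card_insert_of_notMem (by simp [i6]), Finset.card_singleton]
    · intro h
      apply hne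
      refine ⟨?_, ?_, ?_⟩
      · simpa using congrArg (fun w : EuclideanSpace ℝ (Fin 3) => w 0) h
      · simpa using congrArg (fun w : EuclideanSpace ℝ (Fin 3) => w 1) h
      · simpa using congrArg (fun w : EuclideanSpace ℝ (Fin 3) => w 2) h
    · intro q hq
      simp only [Finset.mem_insert, Finset.mem_singleton] at hq
      rw [inner_three]
      rcases hq with rfl | rfl | rfl | rfl
      · simpa using h1
      · simpa using h2
      · simpa using h3
      · simpa using h4
  obtain ⟨σ, hσ⟩ := exists_sorted hG
  -- relabelled coordinates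
  let τ : ℕ → ℕ := fun t => if h : t < 8 then (σ ⟨t, h⟩).val else t
  have hτ : ∀ i : Fin 8, τ i.val = (σ i).val := by
    intro i; simp only [τ, i.isLt, dif_pos]
  have hτlt : ∀ t, t < 8 → τ t < 8 := by
    intro t ht
    have := hτ ⟨t, ht⟩
    simp only at this
    rw [this]; exact (σ _).isLt
  have hτinj : ∀ s t, s < 8 → t < 8 → s ≠ t → τ s ≠ τ t := by
    intro s t hs ht hst h
    have h1 := hτ ⟨s, hs⟩
    have h2 := hτ ⟨t, ht⟩
    simp only at h1 h2
    rw [h1, h2] at h
    have := σ.injective (Fin.ext h)
    exact hst (by simpa using this)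
  have hG' : GP (x ∘ τ) (y ∘ τ) (z ∘ τ) := by
    intro a b c d ha hb hc hd hab hac had hbc hbd hcd
    exact hG (τ a) (τ b) (τ c) (τ d) (hτlt a ha) (hτlt b hb) (hτlt c hc) (hτlt d hd)
      (hτinj _ _ ha hb hab) (hτinj _ _ ha hc hac) (hτinj _ _ ha hd had) (hτinj _ _ hb hc hbc)
      (hτinj _ _ hb hd hbd) (hτinj _ _ hc hd hcd)
  have hs' : ∀ i j, 2 ≤ i → i < j → j < 8 → 0 < D (x ∘ τ) (y ∘ τ) (z ∘ τ) 0 1 i j := by
    intro i j h2 hij hj
    have := hσ ⟨i, by omega⟩ ⟨j, hj⟩ h2 (by simpa [Fin.lt_def] using hij)
    have e0 := hτ 0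
    have e1 := hτ 1
    have e2 := hτ ⟨i, by omega⟩
    have e3 := hτ ⟨j, hj⟩
    simp only [Fin.val_zero, Fin.val_one] at e0 e1 e2 e3
    have key : D (x ∘ τ) (y ∘ τ) (z ∘ τ) 0 1 i j = D x y z (τ 0) (τ 1) (τ i) (τ j) := rfl
    rw [key, e0, e1, e2, e3]
    exact this
  obtain ⟨m1, m2, m3, hgood, hm1, hm2, hm3⟩ := core hG' hs'
  -- planes
  have plane : ∀ m, Sep (x ∘ τ) (y ∘ τ) (z ∘ τ) m → ∃ (n : EuclideanSpace ℝ (Fin 3)) (c : ℝ),
      ∀ i, i < 8 → (m.testBit i = true → c < inner ℝ n (pt (τ i))) ∧
        (m.testBit i = false → inner ℝ n (pt (τ i)) < c) := by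
    rintro m ⟨f, ⟨A, B, C, E, hf⟩, hm⟩
    refine ⟨!₂[A, B, C], -E, ?_⟩
    intro i hi
    have h := hm i hi
    rw [inner_three]
    have e1 : (!₂[A, B, C] : EuclideanSpace ℝ (Fin 3)) 0 = A := by simp
    have e2 : (!₂[A, B, C] : EuclideanSpace ℝ (Fin 3)) 1 = B := by simp
    have e3 : (!₂[A, B, C] : EuclideanSpace ℝ (Fin 3)) 2 = C := by simp
    rw [e1, e2, e3]
    have hfi : f i = A * pt (τ i) 0 + B * pt (τ i) 1 + C * pt (τ i) 2 + E := hf i
    rw [hfi] at h
    exact ⟨fun hb => by linarith [h.1 hb], fun hb => by linarith [h.2 hb]⟩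
  let m : Fin 3 → ℕ := ![m1, m2, m3]
  have hSep : ∀ k : Fin 3, Sep (x ∘ τ) (y ∘ τ) (z ∘ τ) (m k) := by
    intro k; fin_cases k
    · exact hm1
    · exact hm2
    · exact hm3
  choose n c hnc using fun k => plane (m k) (hSep k)
  -- the bit patterns are a bijection
  let φ : Fin 8 → (Fin 3 → Bool) := fun i k => (m k).testBit i.val
  have hφinj : Function.Injective φ := by
    intro i j hij
    by_contra hne
    have h0 := congrFun hij 0
    have h1 := congrFun hij 1
    have h2 := congrFun hij 2
    simp only [φ, m, Matrix.cons_val_zero, Matrix.cons_val_one, Matrix.cons_val] at h0 h1 h2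
    unfold goodB at hgood
    rw [List.all_eq_true] at hgood
    have hg := hgood i.val (List.mem_range.2 i.isLt)
    rw [List.all_eq_true] at hg
    have hg' := hg j.val (List.mem_range.2 j.isLt)
    rw [h0, h1, h2] at hg'
    simp only [beq_self_eq_true, Bool.and_self, Bool.not_true, Bool.or_false, beq_iff_eq] at hg'
    exact hne (Fin.ext hg')
  have hφbij : Function.Bijective φ := by
    rw [Fintype.bijective_iff_injective_and_card]
    exact ⟨hφinj, by simp⟩
  have hside : ∀ (k : Fin 3) (i : Fin 8),
      ((m k).testBit i.val = true → c k < inner ℝ (n k) (pt (τ i.val))) ∧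
        ((m k).testBit i.val = false → inner ℝ (n k) (pt (τ i.val)) < c k) :=
    fun k i => hnc k i.val i.isLt
  have hall : ∀ p ∈ P, ∃ i : Fin 8, pt (τ i.val) = p := by
    intro p hp
    refine ⟨σ.symm (e.symm ⟨p, hp⟩), ?_⟩
    rw [hτ, Equiv.apply_symm_apply, hpt, Equiv.apply_symm_apply]
  have hmem : ∀ i : Fin 8, pt (τ i.val) ∈ P := fun i => hptmem _ (hτlt _ i.isLt)
  have hpat : ∀ s : Fin 3 → Bool, ∃! p, p ∈ P ∧
        ∀ i, (s i = true → c i < inner ℝ (n i) p) ∧ (s i = false → inner ℝ (n i) p < c i) := by
    intro s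
    obtain ⟨i, hi⟩ := hφbij.2 s
    refine ⟨pt (τ i.val), ⟨hmem i, ?_⟩, ?_⟩
    · intro k
      have hk : (m k).testBit i.val = s k := congrFun hi k
      have := hside k i
      rw [hk] at this
      exact this
    · rintro q ⟨hq, hqs⟩
      obtain ⟨j, rfl⟩ := hall q hq
      have hj : φ j = s := by
        funext k
        have h1 := hside k j
        have h2 := hqs k
        show (m k).testBit j.val = s k
        cases hb : (m k).testBit j.val <;> cases hsk : s k
        · rfl
        · exact absurd (h2.1 hsk) (not_lt.2 (h1.2 hb).le)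
        · exact absurd (h2.2 hsk) (not_lt.2 (h1.1 hb).le)
        · rfl
      have : j = i := hφinj (hj.trans hi.symm)
      rw [this]
  have hind : LinearIndependent ℝ n := by
    refine independent_of_patterns n c fun s => ?_
    obtain ⟨p, hp, _⟩ := hpat s
    exact ⟨p, hp.2⟩
  refine ⟨n, c, hind, fun i => hind.ne_zero i, ?_, hpat⟩
  intro k p hp
  obtain ⟨i, rfl⟩ := hall p hp
  have h := hside k i
  cases hb : (m k).testBit i.val
  · exact (h.2 hb).ne
  · exact (h.1 hb).ne'

end Pool.Agent.Results.MP_a0a64f_co.EightPoints
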